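import Pool.Agent.Helper4.SW.L2

/-!
S-world: comparison of a spider with a spider with two legs (helper70, Theorem (R)).
-/

set_option autoImplicit false

namespace Pool.Agent.Helper36.SW

open Pool.Agent.Helper6.HL hiding X
open Pool.Agent.Helper4.SW
open Finset Polynomial

variable {q : ℕ} (w : Fin q → ℝ) (y : ℝ)

/-- the merge function of legs with `a + 1` and `b + 1` vertices -/
noncomputable def XX (a b : ℕ) : Fin q → ℝ :=
  fun i => (w i - y) * ch w y (a + 1) i * ch w y (b + 1) i

/-- number of vertices of the branch -/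
def nn (J : List ℕ) : ℕ := J.sum + J.length + 1

/-- the merge function in the presence of the other legs -/
noncomputable def Ph (a b : ℕ) (J : List ℕ) : Fin q → ℝ :=
  aeval (K' w) (st w y (R J)).p (XX w y a b)

/-- loss of the value at the smallest part -/
noncomputable def yh (J : List ℕ) : ℝ := l w y (nn J) - sa w y J

/-- gain in a context -/
noncomputable def yB (J : List ℕ) (G : Fin q → ℝ) : ℝ :=
  E w (fun i => G i * sf w y J i) - E w (fun i => G i * hat w (psi w y (nn J)) i) +
    yh w y J * E w G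

variable {w y}

theorem st_R_cons (j : ℕ) (J : List ℕ) : st w y (R (j :: J)) =
    ⟨l w y (j + 1) * (st w y (R J)).a, psi w y (j + 1) * (st w y (R J)).p⟩ := by
  rw [R, l_succ, psi_succ]
  rfl

theorem hat_mul' (p r : ℝ[X]) : hat w (p * r) = aeval (K' w) r (hat w p) := by
  rw [mul_comm, hat_mul]

theorem hat_merge (a b : ℕ) (J : List ℕ) (i : Fin q) :
    hat w (st w y (R (a :: b :: J))).p i =
      hat w (st w y (R ((a + b + 1) :: J))).p i - y * Ph w y a b J i := by
  obtain ⟨h1, _⟩ := merge_id w y (a + 1) (b + 1)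
  rw [st_R_cons, st_R_cons, st_R_cons]
  simp only
  rw [← mul_assoc, hat_mul' (psi w y (a + 1) * psi w y (b + 1)), hat_mul' (psi w y (a + b + 1 + 1))]
  have e : hat w (psi w y (a + 1) * psi w y (b + 1)) =
      hat w (psi w y (a + b + 1 + 1)) - y • XX w y a b := by
    funext k
    rw [h1 k, show a + 1 + (b + 1) = a + b + 1 + 1 by ring]
    rfl
  rw [e, map_sub, map_smul]
  rfl

theorem a_merge (a b : ℕ) (J : List ℕ) :
    (st w y (R (a :: b :: J))).a = (st w y (R ((a + b + 1) :: J))).a +
      (st w y (R J)).a * E w (XX w y a b) := by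
  obtain ⟨_, h2⟩ := merge_id w y (a + 1) (b + 1)
  rw [st_R_cons, st_R_cons, st_R_cons]
  simp only
  have e : XX w y a b = fun k => (w k - y) * ch w y (a + 1) k * ch w y (b + 1) k := rfl
  rw [← mul_assoc, h2, show a + 1 + (b + 1) = a + b + 1 + 1 by ring, ← e]
  ring

theorem sa_merge (a b : ℕ) (J : List ℕ) :
    sa w y (a :: b :: J) = sa w y ((a + b + 1) :: J) - y * E w (Ph w y a b J) := by
  rw [sa, sa, L_def, L_def, ← E_const_mul, ← E_sub]
  congr 1
  funext i
  exact hat_merge a b J i

theorem sf_merge (a b : ℕ) (J : List ℕ) (i : Fin q) :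
    sf w y (a :: b :: J) i = sf w y ((a + b + 1) :: J) i +
      y * ((st w y (R J)).a * E w (XX w y a b) - E w (Ph w y a b J) + w i * Ph w y a b J i) := by
  have e : hat w (st w y (R (a :: b :: J))).p =
      fun i => hat w (st w y (R ((a + b + 1) :: J))).p i - y * Ph w y a b J i :=
    funext fun i => hat_merge a b J i
  rw [sf, sf, a_merge, e, K'_apply, K'_apply, E_sub, E_const_mul]
  ring

theorem nn_merge (a b : ℕ) (J : List ℕ) : nn (a :: b :: J) = nn ((a + b + 1) :: J) := by
  simp only [nn, List.sum_cons, List.length_cons]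
  omega

theorem yh_merge (a b : ℕ) (J : List ℕ) :
    yh w y (a :: b :: J) = yh w y ((a + b + 1) :: J) + y * E w (Ph w y a b J) := by
  rw [yh, yh, nn_merge, sa_merge]
  ring

theorem yB_merge (a b : ℕ) (J : List ℕ) (G : Fin q → ℝ) :
    yB w y (a :: b :: J) G = yB w y ((a + b + 1) :: J) G +
      y * (E w G * ((st w y (R J)).a * E w (XX w y a b)) +
        E w (fun i => w i * G i * Ph w y a b J i)) := by
  have e : (fun i => G i * sf w y (a :: b :: J) i) = fun i => G i * sf w y ((a + b + 1) :: J) i +
      ((y * ((st w y (R J)).a * E w (XX w y a b) - E w (Ph w y a b J))) * G i +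
        y * (w i * G i * Ph w y a b J i)) := by
    funext i
    rw [sf_merge]
    ring
  rw [yB, yB, yh_merge, nn_merge, e, E_add', E_add', E_const_mul, E_const_mul]
  ring

theorem XX_nn (h : Hyp w y) (a b : ℕ) (i : Fin q) : 0 ≤ XX w y a b i :=
  mul_nonneg (mul_nonneg (sub_nonneg.2 (h.lt i).le) (ch_pos h a i).le) (ch_pos h b i).le

theorem Ph_nn (h : Hyp w y) (a b : ℕ) (J : List ℕ) (i : Fin q) : 0 ≤ Ph w y a b J i :=
  aeval_nonneg h.nn (st_nonneg h.nn h.hy.le (R J)).2 (XX_nn h a b) i

theorem E_Ph (a b : ℕ) (J : List ℕ) : E w (Ph w y a b J) =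
    E w (fun i => XX w y a b i * hat w (st w y (R J)).p i) := by
  have h1 := E_aeval_mul w (st w y (R J)).p (XX w y a b) (fun _ => 1)
  simp only [mul_one] at h1
  rw [← hat_def] at h1
  exact h1

theorem K'_one (h : Hyp w y) : K' w (fun _ => 1) = fun i => 1 - w i := by
  funext i
  rw [K'_apply, E_one h, mul_one]

theorem aeval_w (h : Hyp w y) (p : ℝ[X]) :
    aeval (K' w) p w = fun i => hat w p i - L w p + w i * hat w p i := by
  have e : (fun _ => (1 : ℝ)) - K' w (fun _ => 1) = w := by
    rw [K'_one h]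
    funext i
    simp
  have e2 : aeval (K' w) p (K' w (fun _ => 1)) = K' w (hat w p) := by
    rw [← hat_X_mul, hat_mul', ← hat_one w, ← hat_X_mul, mul_one]
  have e3 : aeval (K' w) p ((fun _ => (1 : ℝ)) - K' w (fun _ => 1)) =
      hat w p - K' w (hat w p) := by
    rw [map_sub, e2, ← hat_def]
  rw [e] at e3
  rw [e3]
  funext i
  rw [Pi.sub_apply, K'_apply, L_def]
  ring

theorem E_w_Ph (h : Hyp w y) (a b : ℕ) (J : List ℕ) : E w (fun i => w i * Ph w y a b J i) =
    E w (fun i => XX w y a b i * (hat w (st w y (R J)).p i - sa w y J +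
      w i * hat w (st w y (R J)).p i)) := by
  have h1 := E_aeval_mul w (st w y (R J)).p (XX w y a b) w
  rw [aeval_w h] at h1
  rw [sa, ← h1]
  congr 1
  funext i
  exact mul_comm _ _

theorem hat_R_le (h : Hyp w y) (J : List ℕ) (i : Fin q) :
    hat w (st w y (R J)).p i ≤ (st w y (R J)).a := by
  induction J generalizing i with
  | nil =>
    change hat w 1 i ≤ 1
    rw [hat_one]
  | cons j J ih =>
    rw [st_R_cons]
    simp only
    have e : (fun i => (st w y (R J)).a * (1 : ℝ)) = (st w y (R J)).a • fun _ : Fin q => (1 : ℝ) := by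
      funext i
      simp
    have h1 := aeval_mono h.nn (psi_NN h.nn h.hy.le (j + 1)) (f := hat w (st w y (R J)).p)
      (g := fun _ => (st w y (R J)).a * 1) (fun i => by rw [mul_one]; exact ih i) i
    rw [hat_mul]
    refine h1.trans ?_
    rw [e, map_smul, ← hat_def, Pi.smul_apply, smul_eq_mul, mul_comm]
    refine mul_le_mul_of_nonneg_right ?_ (st_nonneg h.nn h.hy.le (R J)).1
    rw [hat_psi_kap]
    linarith [kap_nonneg h (j + 1) i]

theorem hat_R_cons_le (h : Hyp w y) (j : ℕ) (J : List ℕ) (i : Fin q) :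
    hat w (st w y (R (j :: J))).p i ≤ (st w y (R J)).a * hat w (psi w y (j + 1)) i := by
  rw [st_R_cons]
  simp only
  have e : (fun i => (st w y (R J)).a * (1 : ℝ)) = (st w y (R J)).a • fun _ : Fin q => (1 : ℝ) := by
    funext i
    simp
  have h1 := aeval_mono h.nn (psi_NN h.nn h.hy.le (j + 1)) (f := hat w (st w y (R J)).p)
    (g := fun _ => (st w y (R J)).a * 1) (fun i => by rw [mul_one]; exact hat_R_le h J i) i
  rw [hat_mul]
  refine h1.trans (le_of_eq ?_)
  rw [e, map_smul, ← hat_def, Pi.smul_apply, smul_eq_mul]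

/-- (R1): at least one leg in the rest -/
theorem R1 (h : Hyp w y) {t : Fin q} (ht : Top w t) (a b j : ℕ) (J : List ℕ) :
    E w (fun i => (w t - w i) * (XX w y a b i * hat w (st w y (R (j :: J))).p i)) ≤
      E w (XX w y a b) * ((st w y (R (j :: J))).a - sa w y (j :: J)) := by
  set α := (st w y (R J)).a with hα
  have hα0 : 0 ≤ α := (st_nonneg h.nn h.hy.le (R J)).1
  have h1 := L2_leg h ht a b j
  have e1 : E w (fun c => (w c - y) * ch w y (a + 1) c * ch w y (b + 1) c *
      (l w y (j + 1) - l w y (j + 2) - (w t - w c) * hat w (psi w y (j + 1)) c)) =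
      (l w y (j + 1) - l w y (j + 2)) * E w (XX w y a b) -
        E w (fun c => (w t - w c) * (XX w y a b c * hat w (psi w y (j + 1)) c)) := by
    rw [← E_const_mul, ← E_sub]
    congr 1
    funext c
    rw [XX]
    ring
  rw [e1] at h1
  -- left side
  have h2 : E w (fun i => (w t - w i) * (XX w y a b i * hat w (st w y (R (j :: J))).p i)) ≤
      α * E w (fun c => (w t - w c) * (XX w y a b c * hat w (psi w y (j + 1)) c)) := by
    rw [← E_const_mul]
    refine E_mono h.nn fun i => ?_
    have h3 := mul_le_mul_of_nonneg_left (hat_R_cons_le h j J i)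
      (mul_nonneg (sub_nonneg.2 (ht i)) (XX_nn h a b i))
    rw [← hα] at h3
    linarith
  -- right side
  have h4 : sa w y (j :: J) ≤ α * l w y (j + 2) := by
    rw [sa, L_def, show j + 2 = j + 1 + 1 by ring, l_succ w y (j + 1), L_def, ← E_const_mul]
    exact E_mono h.nn fun i => hat_R_cons_le h j J i
  have h5 : (st w y (R (j :: J))).a = l w y (j + 1) * α := by rw [st_R_cons]
  have hX : 0 ≤ E w (XX w y a b) := E_nonneg h.nn (XX_nn h a b)
  have h6 := mul_le_mul_of_nonneg_left h4 hX
  have h7 := mul_le_mul_of_nonneg_left (sub_nonneg.1 h1) hα0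
  rw [h5]
  linarith

/-- Theorem (R) for one merge -/
theorem RR_step (h : Hyp w y) {t : Fin q} (ht : Top w t) (a b j : ℕ) (J : List ℕ)
    {G : Fin q → ℝ} (hG : Cone w G) :
    yB w y ((a + b + 1) :: j :: J) G +
      (E w G + w t * G t) * (yh w y (a :: b :: j :: J) - yh w y ((a + b + 1) :: j :: J)) ≤
    yB w y (a :: b :: j :: J) G := by
  have h1 := R1 h ht a b j J
  generalize j :: J = K at h1 ⊢
  rw [yB_merge a b K, yh_merge a b K]
  have h2 : E w (fun i => (w t - w i) * (XX w y a b i * hat w (st w y (R K)).p i)) =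
      w t * E w (Ph w y a b K) - E w (fun i => w i * (XX w y a b i * hat w (st w y (R K)).p i)) := by
    rw [E_Ph, ← E_const_mul, ← E_sub]
    congr 1
    funext i
    ring
  have h3 : E w (fun i => w i * Ph w y a b K i) = E w (Ph w y a b K) -
      sa w y K * E w (XX w y a b) +
      E w (fun i => w i * (XX w y a b i * hat w (st w y (R K)).p i)) := by
    rw [E_w_Ph h, E_Ph, ← E_const_mul, ← E_sub, ← E_add']
    congr 1
    funext i
    ring
  rw [h2] at h1
  -- the bracket is nonnegative
  have h4 : E w (Ph w y a b K) ≤ (st w y (R K)).a * E w (XX w y a b) := by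
    rw [E_Ph, ← E_const_mul]
    refine E_mono h.nn fun i => ?_
    have := mul_le_mul_of_nonneg_left (hat_R_le h K i) (XX_nn h a b i)
    linarith
  have hGt := hG.nn t
  have hEG : G t ≤ E w G := by
    have := E_mono h.nn (w := w) (f := fun _ => G t) (g := G) fun i => hG.anti i t (ht i)
    rwa [E_const h] at this
  have h5 : G t * E w (fun i => w i * Ph w y a b K i) ≤
      E w (fun i => w i * G i * Ph w y a b K i) := by
    rw [← E_const_mul]
    refine E_mono h.nn fun i => ?_
    have := mul_le_mul_of_nonneg_right (hG.anti i t (ht i))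
      (mul_nonneg (h.nn i) (Ph_nn h a b K i))
    linarith
  have h6 := mul_le_mul_of_nonneg_right hEG (sub_nonneg.2 h4)
  have h7 := mul_le_mul_of_nonneg_left h1 hGt
  have key : (E w G + w t * G t) * E w (Ph w y a b K) ≤
      E w G * ((st w y (R K)).a * E w (XX w y a b)) +
        E w (fun i => w i * G i * Ph w y a b K i) := by
    rw [h3] at h5
    linarith
  have := mul_le_mul_of_nonneg_left key h.hy.le
  linarith

end Pool.Agent.Helper36.SW
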