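import Pool.Agent.Helper4.SW.Cert
import Pool.Agent.Helper4.SW.L2

/-!
S-world: a vertex all of whose children are bad spiders: deletion of one child.
-/

set_option autoImplicit false

namespace Pool.Agent.Helper36.SW

open Pool.Agent.Helper6.HL hiding X
open Pool.Agent.Helper4.SW
open Finset Polynomial

variable {q : ℕ} {w : Fin q → ℝ} {y : ℝ}

/-- Chebyshev for `E` -/
theorem cheb (h : Hyp w y) {f g : Fin q → ℝ} (hf : ∀ i j, w i ≤ w j → f j ≤ f i)
    (hg : ∀ i j, w i ≤ w j → g j ≤ g i) : E w f * E w g ≤ E w (fun i => f i * g i) := by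
  have hc : 0 ≤ ∑ i, ∑ j, w i * w j * ((f i - f j) * (g i - g j)) := by
    refine sum_nonneg fun i _ => sum_nonneg fun j _ => mul_nonneg
      (mul_nonneg (h.nn i) (h.nn j)) ?_
    rcases le_total (w i) (w j) with hij | hij
    · exact mul_nonneg (sub_nonneg.2 (hf _ _ hij)) (sub_nonneg.2 (hg _ _ hij))
    · exact mul_nonneg_of_nonpos_of_nonpos (sub_nonpos.2 (hf _ _ hij))
        (sub_nonpos.2 (hg _ _ hij))
  have hm : ∀ i j, w i * w j * ((f i - f j) * (g i - g j)) =
      (w i * (f i * g i)) * w j - (w i * f i) * (w j * g j) - (w i * g i) * (w j * f j) +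
        w i * (w j * (f j * g j)) := by
    intro i j; ring
  simp only [hm, sum_add_distrib, sum_sub_distrib, ← sum_mul_sum] at hc
  have h1 : ∑ i, w i = 1 := h.one
  rw [h1] at hc
  simp only [E]
  nlinarith

/-- the polynomial of the message of a spider -/
noncomputable def fp (w : Fin q → ℝ) (y : ℝ) (J : List ℕ) : ℝ[X] :=
  C (y * (st w y (R J)).a) + Polynomial.X * (st w y (R J)).p

theorem hat_fp (J : List ℕ) : hat w (fp w y J) = sf w y J := by
  funext i
  rw [fp, map_add, hat_C, hat_X_mul]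
  rfl

theorem fp_NN (h : Hyp w y) (J : List ℕ) : NN (fp w y J) := by
  obtain ⟨h1, h2⟩ := st_nonneg h.nn h.hy.le (R J)
  exact (NN.C (mul_nonneg h.hy.le h1)).add (NN.X.mul h2)

theorem st_Sp_cons (J : List ℕ) (Js : List (List ℕ)) : st w y (Sp (J :: Js)) =
    ⟨sa w y J * (st w y (Sp Js)).a, fp w y J * (st w y (Sp Js)).p⟩ := by
  rw [Sp]
  rfl

theorem L_cheb (h : Hyp w y) {p r : ℝ[X]} (hp : NN p) (hr : NN r) :
    L w p * L w r ≤ L w (p * r) := by
  rw [L_mul, L_def, L_def]
  exact cheb h (Cone.hat h.nn hp).anti (Cone.hat h.nn hr).anti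

/-- average of the product of messages -/
theorem L_Sp (h : Hyp w y) (Js : List (List ℕ))
    (hJ : ∀ J ∈ Js, sa w y J ≤ E w (sf w y J)) (p : ℝ[X]) (hp : NN p) :
    L w p * (st w y (Sp Js)).a ≤ L w (p * (st w y (Sp Js)).p) := by
  induction Js generalizing p with
  | nil =>
    rw [Sp]
    change L w p * 1 ≤ L w (p * 1)
    rw [mul_one, mul_one]
  | cons J Js ih =>
    rw [st_Sp_cons]
    simp only
    have h0 := ih (fun K hK => hJ K (by simp [hK])) (p * fp w y J) (hp.mul (fp_NN h J))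
    have h1 : L w p * sa w y J ≤ L w (p * fp w y J) := by
      refine (mul_le_mul_of_nonneg_left ((hJ J (by simp)).trans (le_of_eq ?_))
        (L_nonneg h.nn hp)).trans (L_cheb h hp (fp_NN h J))
      rw [L_def, hat_fp]
    have h2 := mul_le_mul_of_nonneg_right h1 (st_nonneg h.nn h.hy.le (Sp Js)).1
    rw [← mul_assoc, ← mul_assoc]
    exact h2.trans h0

/-- `<K'G> >= (1 - <x>) <G>` -/
theorem L_X_mul_ge (h : Hyp w y) {p : ℝ[X]} (hp : NN p) :
    (1 - E w w) * L w p ≤ L w (Polynomial.X * p) := by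
  have hG := Cone.hat h.nn hp
  have e1 : L w (Polynomial.X * p) = L w p - E w (fun i => w i * hat w p i) := by
    have e : K' w (hat w p) = fun i => L w p - w i * hat w p i := by
      funext i
      rw [K'_apply, L_def]
    rw [L_def, hat_X_mul, e, E_sub, E_const h]
  have h1 : E w (fun i => w i * hat w p i) ≤ E w w * E w (hat w p) := by
    have := cheb h (f := fun i => - w i) (g := hat w p) (fun i j hij => neg_le_neg hij) hG.anti
    have e2 : E w (fun i => - w i) = - E w w := by
      simp only [E, mul_neg, sum_neg_distrib]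
    have e3 : E w (fun i => - w i * hat w p i) = - E w (fun i => w i * hat w p i) := by
      simp only [E, ← sum_neg_distrib]
      exact sum_congr rfl fun i _ => by ring
    rw [e2, e3] at this
    linarith
  rw [e1, L_def]
  linarith

/-- deletion of a bad child -/
theorem good_bad (h : Hyp w y) (J : List ℕ) (Js : List (List ℕ))
    (hJ : ∀ K ∈ J :: Js, sa w y K * Pw w y 1 ≤ Pw w y (K.sum + K.length + 2) ∧
      y * (Pw w y (K.sum + K.length + 2) - sa w y K * Pw w y 1) ≤
        (1 - E w w) * (E w (sf w y K) * Pw w y 1 - Pw w y (K.sum + K.length + 2))) :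
    Good w y (.cons (Sp (J :: Js)) .nil) := by
  have hD : 0 < 1 - E w w := by
    have := l_two h
    have e : 0 < E w (ch w y 2) := E_pos h fun i => ch_pos h 1 i
    have e2 : ch w y 2 = fun i => 1 - w i := funext fun i => ch_two h i
    rw [e2, E_sub, E_one h] at e
    exact e
  have p1 := Pw_pos h 1
  -- averages are large
  have hF : ∀ K ∈ J :: Js, Pw w y (K.sum + K.length + 2) ≤ E w (sf w y K) * Pw w y 1 := by
    intro K hK
    obtain ⟨h1, h2⟩ := hJ K hK
    have h3 : 0 ≤ y * (Pw w y (K.sum + K.length + 2) - sa w y K * Pw w y 1) :=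
      mul_nonneg h.hy.le (sub_nonneg.2 h1)
    exact sub_nonneg.1 (nonneg_of_mul_nonneg_right (h3.trans h2) hD)
  have hA : ∀ K ∈ Js, sa w y K ≤ E w (sf w y K) := by
    intro K hK
    have hK' : K ∈ J :: Js := by simp [hK]
    exact le_of_mul_le_mul_right ((hJ K hK').1.trans (hF K hK')) p1
  intro A Λ k hA0 hΛ h1 h2
  set N := J.sum + J.length + 1 with hN
  have hsz : (B.cons (Sp (J :: Js)) .nil).size = (B.cons (Sp Js) .nil).size + N := by
    simp only [Sp, B.size, size_R]
    omega
  have hT := h1 (.cons (Sp Js) .nil) (by rw [hsz]; omega)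
  have hr := Pw_ratio h (k + (B.cons (Sp Js) .nil).size) N
  rw [show 1 + N = J.sum + J.length + 2 by omega,
    show k + (B.cons (Sp Js) .nil).size + N = k + (B.cons (Sp (J :: Js)) .nil).size by omega] at hr
  obtain ⟨b1, b2⟩ := hJ J (by simp)
  have b3 := hF J (by simp)
  have e0 : (st w y (.nil : B)) = ⟨1, 1⟩ := rfl
  rw [Z_cons, e0] at hT ⊢
  simp only [mul_one] at hT ⊢
  set Λg := C (y * A) + Polynomial.X * Λ with hΛg
  have hΛg' : NN Λg := (NN.C (mul_nonneg h.hy.le hA0)).add (NN.X.mul hΛ)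
  rw [Z] at hT ⊢
  rw [st_Sp_cons]
  simp only
  set a' := (st w y (Sp Js)).a with ha'
  set p' := (st w y (Sp Js)).p with hp'
  obtain ⟨ha0, hp0⟩ := st_nonneg h.nn h.hy.le (Sp Js)
  rw [← ha'] at ha0
  rw [← hp'] at hp0
  -- the child
  have c1 : L w (Λg * p') * E w (sf w y J) ≤ L w (Λg * (fp w y J * p')) := by
    have := L_cheb h (hΛg'.mul hp0) (fp_NN h J)
    rw [L_def (p := fp w y J), hat_fp] at this
    refine this.trans (le_of_eq ?_)
    congr 1
    ring
  have c2 : L w Λg * a' ≤ L w (Λg * p') := L_Sp h Js hA Λg hΛg'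
  have c3 : (1 - E w w) * L w Λ ≤ L w Λg := by
    rw [hΛg, map_add]
    have := L_X_mul_ge h hΛ
    have e : L w (C (y * A)) = y * A := by
      rw [L_def, hat_C, E_const h]
    rw [e]
    have : 0 ≤ y * A := mul_nonneg h.hy.le hA0
    linarith
  have hL0 : 0 ≤ L w Λ := L_nonneg h.nn hΛ
  set r := Pw w y (J.sum + J.length + 2) with hr'
  set P1 := Pw w y 1 with hP1
  set f := E w (sf w y J) with hf
  set a := sa w y J with ha
  set D := 1 - E w w with hDd
  set M := L w (Λg * p') with hM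
  set Q := L w (Λg * (fp w y J * p')) with hQ
  have d1 : (L w Λ * a') * (y * (r - a * P1)) ≤ (L w Λ * a') * (D * (f * P1 - r)) :=
    mul_le_mul_of_nonneg_left b2 (mul_nonneg hL0 ha0)
  have d2 : D * L w Λ * (a' * (f * P1 - r)) ≤ L w Λg * (a' * (f * P1 - r)) :=
    mul_le_mul_of_nonneg_right c3 (mul_nonneg ha0 (sub_nonneg.2 b3))
  have d3 : L w Λg * a' * (f * P1 - r) ≤ M * (f * P1 - r) :=
    mul_le_mul_of_nonneg_right c2 (sub_nonneg.2 b3)
  have d4 : M * f * P1 ≤ Q * P1 := mul_le_mul_of_nonneg_right c1 p1.le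
  have d5 : r * Pw w y (k + (B.cons (Sp Js) .nil).size) ≤ r * (y * L w Λ * a' + M) :=
    mul_le_mul_of_nonneg_left hT (Pw_pos h _).le
  refine le_of_mul_le_mul_right ?_ p1
  nlinarith

/-- `GoodS` from the deletion inequality for bad spiders -/
theorem goodS_of_T0 (h : Hyp w y)
    (H : ∀ J : List ℕ, 3 ≤ J.length → Good w y (.cons (R J) .nil) ∨
      (sa w y J * Pw w y 1 ≤ Pw w y (J.sum + J.length + 2) ∧
      y * (Pw w y (J.sum + J.length + 2) - sa w y J * Pw w y 1) ≤
        (1 - E w w) * (E w (sf w y J) * Pw w y 1 - Pw w y (J.sum + J.length + 2)))) :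
    GoodS w y := by
  intro J₁ J₂ Js h1 h2 h3
  have hl : ∀ K ∈ J₁ :: J₂ :: Js, 3 ≤ K.length := by
    intro K hK
    simp only [List.mem_cons] at hK
    rcases hK with rfl | rfl | hK
    · exact h1
    · exact h2
    · exact h3 K hK
  by_cases hg : ∃ K ∈ J₁ :: J₂ :: Js, Good w y (.cons (R K) .nil)
  · refine Good.cons_left h.nn h.hy.le ?_ .nil
    generalize J₁ :: J₂ :: Js = L at hg
    obtain ⟨K, hK, hgK⟩ := hg
    induction L with
    | nil => simp at hK
    | cons M Ms ih =>
      rw [List.mem_cons] at hK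
      rcases hK with rfl | hK
      · exact hgK.app_right h.nn h.hy.le (Sp Ms)
      · exact (ih hK).cons_right h.nn h.hy.le (R M)
  · push Not at hg
    exact good_bad h J₁ (J₂ :: Js) fun K hK => (H K (hl K hK)).resolve_left (hg K hK)

end Pool.Agent.Helper36.SW
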