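import Pool.Agent.Helper36.SW.S
import Pool.Agent.Helper36.SW.RR
import Pool.Agent.Helper20.SW.TwoGood

/-!
S-world: straightening of a child with two legs when the context comes from one level higher and
`y ≤ T (1 - T)`, `T` the weight of the top colour.
-/

set_option autoImplicit false

namespace Pool.Agent.Helper36.SW

open Pool.Agent.Helper6.HL hiding X
open Pool.Agent.Helper4.SW
open Finset Polynomial

variable {q : ℕ} {w : Fin q → ℝ} {y : ℝ}

/-- the polynomial inequality -/
theorem str_poly {y p r : ℝ} (hy : 0 ≤ y) (hp : 0 ≤ p) (hr : 0 ≤ r) (h1 : 5 * y + 2 * p + r = 1) :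
    (1 - (2 * y + p)) * (2 * y + p) * (y + p) ^ 2 ≤
      4 * ((1 - (2 * y + p) - y) * ((1 - (2 * y + p)) * (2 * y + p) - y)) := by
  have e : 4 * ((1 - (2 * y + p) - y) * ((1 - (2 * y + p)) * (2 * y + p) - y)) -
      (1 - (2 * y + p)) * (2 * y + p) * (y + p) ^ 2 =
      4 * (p * r ^ 3) + 16 * (p ^ 2 * r ^ 2) + 19 * (p ^ 3 * r) + 7 * p ^ 4 + 4 * (y * r ^ 3) +
      52 * (y * p * r ^ 2) + 104 * (y * p ^ 2 * r) + 53 * (y * p ^ 3) + 32 * (y ^ 2 * r ^ 2) +
      167 * (y ^ 2 * p * r) + 139 * (y ^ 2 * p ^ 2) + 66 * (y ^ 3 * r) + 139 * (y ^ 3 * p) +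
      34 * y ^ 4 := by
    obtain rfl : r = 1 - 5 * y - 2 * p := by linarith
    ring
  have h2 : 0 ≤ 4 * (p * r ^ 3) + 16 * (p ^ 2 * r ^ 2) + 19 * (p ^ 3 * r) + 7 * p ^ 4 +
      4 * (y * r ^ 3) + 52 * (y * p * r ^ 2) + 104 * (y * p ^ 2 * r) + 53 * (y * p ^ 3) +
      32 * (y ^ 2 * r ^ 2) + 167 * (y ^ 2 * p * r) + 139 * (y ^ 2 * p ^ 2) + 66 * (y ^ 3 * r) +
      139 * (y ^ 3 * p) + 34 * y ^ 4 := by positivity
  linarith

/-- `w² D ≤ (w - y) M` -/
theorem sq_D_le (h : Hyp w y) {t : Fin q} (ht : Top w t) (a b : ℕ) (i : Fin q) :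
    w i * (w i * ((w i - y) * ch w y a i * ch w y b i)) ≤
      (w i - y) * ((w t * ch w y a t) * (w t * ch w y b t)) := by
  have h1 := (Cone.ch (w := w) (y := y) h.nn h.hy.le a).mono i t (ht i)
  have h2 := (Cone.ch (w := w) (y := y) h.nn h.hy.le b).mono i t (ht i)
  have h3 := mul_nonneg (h.nn i) ((Cone.ch (w := w) (y := y) h.nn h.hy.le a).nn i)
  have h4 := mul_nonneg (h.nn i) ((Cone.ch (w := w) (y := y) h.nn h.hy.le b).nn i)
  have h5 := mul_le_mul h1 h2 h4 (h3.trans h1)
  have h6 := mul_le_mul_of_nonneg_left h5 (sub_nonneg.2 (h.lt i).le)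
  calc w i * (w i * ((w i - y) * ch w y a i * ch w y b i)) =
      (w i - y) * (w i * ch w y a i * (w i * ch w y b i)) := by ring
    _ ≤ _ := h6

/-- the coefficients away from the top are nonnegative -/
theorem str_coef (h : Hyp w y) {t : Fin q} (ht : Top w t) (a b : ℕ) {i : Fin q} (hi : i ≠ t) :
    y * E w (XX w y a b) + w i * (w i * XX w y a b i) ≤ E w (fun k => w k * XX w y a b k) := by
  have hT := top_half h ht
  have hX := XX_nn h a b
  have hc := le_compl h hi
  have hi0 := h.pos i
  have ht0 := h.pos t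
  have hy := h.hy
  -- the single inequality
  have key : y * (w i * XX w y a b i) ≤ (w t - y) * (w t * XX w y a b t) := by
    have h1 := sq_D_le h ht (a + 1) (b + 1) i
    have e1 : w i * (w i * XX w y a b i) =
        w i * (w i * ((w i - y) * ch w y (a + 1) i * ch w y (b + 1) i)) := rfl
    have e2 : w t * (w t * XX w y a b t) =
        (w t - y) * ((w t * ch w y (a + 1) t) * (w t * ch w y (b + 1) t)) := by
      change w t * (w t * ((w t - y) * ch w y (a + 1) t * ch w y (b + 1) t)) = _
      ring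
    set M := (w t * ch w y (a + 1) t) * (w t * ch w y (b + 1) t) with hM
    have hM0 : 0 ≤ M := mul_nonneg (mul_nonneg ht0.le (ch_pos h a t).le)
      (mul_nonneg ht0.le (ch_pos h b t).le)
    rw [← e1] at h1
    have hq : w t * (y * (w i - y)) ≤ w i * (w t - y) ^ 2 := by
      have g1 : 4 * (y * (w i - y)) ≤ w i ^ 2 := by nlinarith [sq_nonneg (w i - 2 * y)]
      have g2 : w i ≤ w t - y := by linarith
      have g3 : w t ≤ 4 * (w t - y) := by linarith [h.lt i]
      have g4 : w t * w i ≤ 4 * (w t - y) * (w t - y) := mul_le_mul g3 g2 hi0.le (by linarith)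
      have g5 := mul_le_mul_of_nonneg_left g4 hi0.le
      have g6 := mul_le_mul_of_nonneg_left g1 ht0.le
      nlinarith
    have h2 : (w t * w i) * (y * (w i * XX w y a b i)) ≤
        (w t * w i) * ((w t - y) * (w t * XX w y a b t)) := by
      have g1 : (w t * w i) * (y * (w i * XX w y a b i)) =
          w t * y * (w i * (w i * XX w y a b i)) := by ring
      have g2 : (w t * w i) * ((w t - y) * (w t * XX w y a b t)) =
          w i * (w t - y) * (w t * (w t * XX w y a b t)) := by ring
      rw [g1, g2, e2]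
      have g3 := mul_le_mul_of_nonneg_left h1 (mul_nonneg ht0.le hy.le)
      have g4 := mul_le_mul_of_nonneg_right hq hM0
      nlinarith
    exact le_of_mul_le_mul_left h2 (mul_pos ht0 hi0)
  -- the sum
  have hsum : 0 ≤ ∑ k, (w k * (w k * XX w y a b k) - y * (w k * XX w y a b k)) -
      w i * (w i * XX w y a b i) := by
    have h1 : ∀ k, 0 ≤ w k * (w k * XX w y a b k) - y * (w k * XX w y a b k) := by
      intro k
      have := mul_nonneg (sub_nonneg.2 (h.lt k).le) (mul_nonneg (h.nn k) (hX k))
      nlinarith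
    have h2 : (w t * (w t * XX w y a b t) - y * (w t * XX w y a b t)) +
        (w i * (w i * XX w y a b i) - y * (w i * XX w y a b i)) ≤
        ∑ k, (w k * (w k * XX w y a b k) - y * (w k * XX w y a b k)) := by
      have h3 := sum_le_sum_of_subset_of_nonneg (subset_univ ({t, i} : Finset (Fin q)))
        (f := fun k => w k * (w k * XX w y a b k) - y * (w k * XX w y a b k))
        (fun k _ _ => h1 k)
      rw [sum_pair (Ne.symm hi)] at h3
      exact h3
    nlinarith
  rw [sum_sub_distrib, ← mul_sum] at hsum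
  have e3 : E w (XX w y a b) = ∑ k, w k * XX w y a b k := rfl
  have e4 : E w (fun k => w k * XX w y a b k) = ∑ k, w k * (w k * XX w y a b k) := rfl
  rw [e3, e4]
  linarith

/-- the average -/
theorem str_avg (h : Hyp w y) {t : Fin q} (ht : Top w t) (hc1 : y ≤ w t * (1 - w t)) (a b : ℕ) :
    0 ≤ E w (fun i => XX w y a b i * (w i * (1 - w i) - y)) := by
  have hX := XX_nn h a b
  by_cases hneg : ∀ i, i ≠ t → y ≤ w i * (1 - w i)
  · refine E_nonneg h.nn fun i => mul_nonneg (hX i) ?_
    by_cases hi : i = t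
    · rw [hi]; linarith
    · linarith [hneg i hi]
  push Not at hneg
  obtain ⟨j, hj, hj1⟩ := hneg
  have hT := top_half h ht
  have ht0 := h.pos t
  have hy := h.hy
  -- colours with negative term are small
  have hsmall : ∀ i, i ≠ t → w i * (1 - w i) < y → w i < 1 - w t - y := by
    intro i hi hi1
    have e1 : ∑ k ∈ (univ.erase t).erase i, w k = 1 - w t - w i := by
      rw [sum_erase_eq_sub (mem_erase.2 ⟨hi, mem_univ i⟩), sum_erase h t]
    rcases ((univ.erase t).erase i).eq_empty_or_nonempty with h0 | ⟨k, hk⟩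
    · rw [h0, sum_empty] at e1
      have e2 : w i = 1 - w t := by linarith
      rw [e2] at hi1
      nlinarith
    · have h2 : w k ≤ ∑ k ∈ (univ.erase t).erase i, w k :=
        single_le_sum (fun l _ => h.nn l) hk
      linarith [h.lt k]
  set M := (w t * ch w y (a + 1) t) * (w t * ch w y (b + 1) t) with hM
  have hM0 : 0 ≤ M := mul_nonneg (mul_nonneg ht0.le (ch_pos h a t).le)
    (mul_nonneg ht0.le (ch_pos h b t).le)
  set s := 1 - w t with hs
  have h2y : 2 * y < s := by linarith [hsmall j hj hj1, h.lt j]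
  -- the negative terms
  have hterm : ∀ i, i ≠ t → - (M * (w i * (s - y) ^ 2) / 4) ≤
      w i * (XX w y a b i * (w i * (1 - w i) - y)) := by
    intro i hi
    have hi0 := h.pos i
    rcases le_or_gt y (w i * (1 - w i)) with h3 | h3
    · have h4 : 0 ≤ w i * (XX w y a b i * (w i * (1 - w i) - y)) :=
        mul_nonneg hi0.le (mul_nonneg (hX i) (by linarith))
      have h5 : 0 ≤ M * (w i * (s - y) ^ 2) / 4 := by positivity
      linarith
    · have h4 := hsmall i hi h3
      have h1 := sq_D_le h ht (a + 1) (b + 1) i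
      rw [← hM] at h1
      have e1 : w i * (w i * XX w y a b i) =
        w i * (w i * ((w i - y) * ch w y (a + 1) i * ch w y (b + 1) i)) := rfl
      rw [← e1] at h1
      have h5 : 4 * ((w i - y) * (y - w i * (1 - w i))) ≤ w i ^ 4 := by
        nlinarith [sq_nonneg (w i ^ 2 - 2 * (w i - y))]
      have h6 : w i ^ 2 ≤ (s - y) ^ 2 := pow_le_pow_left₀ hi0.le h4.le 2
      have h7 : 0 < y - w i * (1 - w i) := by linarith
      -- multiply by w i
      have h8 : w i * (w i * XX w y a b i) * (y - w i * (1 - w i)) ≤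
          (w i - y) * M * (y - w i * (1 - w i)) := mul_le_mul_of_nonneg_right h1 h7.le
      have h9 := mul_le_mul_of_nonneg_right h5 hM0
      have h10 : w i ^ 4 * M ≤ w i ^ 2 * (s - y) ^ 2 * M := by
        have := mul_le_mul_of_nonneg_left h6 (mul_nonneg (sq_nonneg (w i)) hM0)
        nlinarith
      have h11 : w i * (- (M * (w i * (s - y) ^ 2) / 4)) ≤
          w i * (w i * (XX w y a b i * (w i * (1 - w i) - y))) := by nlinarith
      exact le_of_mul_le_mul_left h11 hi0
  have htop : (w t - y) * M * (w t * s - y) =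
      w t * (w t * (XX w y a b t * (w t * (1 - w t) - y))) := by
    change _ = w t * (w t * (((w t - y) * ch w y (a + 1) t * ch w y (b + 1) t) *
      (w t * (1 - w t) - y)))
    rw [hM, hs]
    ring
  have e0 : E w (fun i => XX w y a b i * (w i * (1 - w i) - y)) =
      ∑ i, w i * (XX w y a b i * (w i * (1 - w i) - y)) := rfl
  rw [e0, ← add_sum_erase univ _ (mem_univ t)]
  have h12 : - (M * (s * (s - y) ^ 2) / 4) ≤
      ∑ i ∈ univ.erase t, w i * (XX w y a b i * (w i * (1 - w i) - y)) := by
    have h13 : ∑ i ∈ univ.erase t, - (M * (w i * (s - y) ^ 2) / 4) ≤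
        ∑ i ∈ univ.erase t, w i * (XX w y a b i * (w i * (1 - w i) - y)) :=
      sum_le_sum fun i hi => hterm i (mem_erase.1 hi).1
    have h14 : ∑ i ∈ univ.erase t, - (M * (w i * (s - y) ^ 2) / 4) =
        - (M * (s * (s - y) ^ 2) / 4) := by
      have e : ∀ i, - (M * (w i * (s - y) ^ 2) / 4) = w i * (- (M * (s - y) ^ 2 / 4)) :=
        fun i => by ring
      simp only [e]
      rw [← sum_mul, sum_erase h t]
      ring
    rw [h14] at h13
    exact h13
  have hpoly := str_poly (y := y) (p := s - 2 * y) (r := 1 - 5 * y - 2 * (s - 2 * y)) hy.le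
    (by linarith) (by linarith) (by ring)
  have e1 : 2 * y + (s - 2 * y) = s := by ring
  have e2 : y + (s - 2 * y) = s - y := by ring
  rw [e1, e2] at hpoly
  have e3 : 1 - s = w t := by rw [hs]; ring
  rw [e3] at hpoly
  have h15 := mul_le_mul_of_nonneg_right hpoly hM0
  have h16 : 0 ≤ w t * (w t * (XX w y a b t * (w t * (1 - w t) - y)) +
      ∑ i ∈ univ.erase t, w i * (XX w y a b i * (w i * (1 - w i) - y))) := by
    have h17 := mul_le_mul_of_nonneg_left h12 ht0.le
    rw [mul_add, ← htop]
    nlinarith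
  exact nonneg_of_mul_nonneg_right h16 ht0

/-- straightening of a child with two legs -/
theorem straight_two (h : Hyp w y) {t : Fin q} (ht : Top w t) (hc1 : y ≤ w t * (1 - w t))
    {Λ Γ : ℝ[X]} (hΛ : NN Λ) (hΓ : NN Γ) {Y : ℝ} (hY1 : Y ≤ L w Λ) (a b : ℕ) :
    Z w y Y (Γ + Polynomial.X * Λ) (B.path (a + b + 3)) ≤
      Z w y Y (Γ + Polynomial.X * Λ) (.cons (R [a, b]) .nil) := by
  rw [Pool.Agent.Helper20.SW.Z_two h]
  have hG := Cone.hat h.nn hΛ
  have hX := XX_nn h a b
  set g := hat w Λ with hg
  have eL : L w Λ = E w g := rfl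
  have e1 : E w (fun i => (w i - y) * ch w y (a + 1) i * ch w y (b + 1) i *
      (w i * hat w (Γ + Polynomial.X * Λ) i)) =
      E w (fun i => hat w Γ i * (w i * XX w y a b i)) +
      ∑ i, w i * g i * (E w (fun i => w i * XX w y a b i) - w i * (w i * XX w y a b i)) := by
    have e2 : ∀ i, (w i - y) * ch w y (a + 1) i * ch w y (b + 1) i *
        (w i * hat w (Γ + Polynomial.X * Λ) i) =
        (hat w Γ i * (w i * XX w y a b i) + E w g * (w i * XX w y a b i)) -
        w i * XX w y a b i * (w i * g i) := by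
      intro i
      rw [map_add, hat_X_mul, Pi.add_apply, K'_apply]
      change XX w y a b i * (w i * (hat w Γ i + (E w g - w i * g i))) = _
      ring
    simp only [e2]
    rw [E_sub, E_add', E_const_mul]
    have e3 : ∑ i, w i * g i * (E w (fun i => w i * XX w y a b i) - w i * (w i * XX w y a b i)) =
        E w g * E w (fun i => w i * XX w y a b i) -
        E w (fun i => w i * XX w y a b i * (w i * g i)) := by
      simp only [mul_sub, sum_sub_distrib, ← sum_mul]
      congr 1
      exact sum_congr rfl fun i _ => by ring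
    rw [e3]
    ring
  have e4 : E w (fun i => (w i - y) * ch w y (a + 1) i * ch w y (b + 1) i) =
      E w (XX w y a b) := rfl
  rw [e1, e4]
  have hEX : 0 ≤ E w (XX w y a b) := E_nonneg h.nn hX
  have hEwX : 0 ≤ E w (fun i => hat w Γ i * (w i * XX w y a b i)) :=
    E_nonneg h.nn fun i => mul_nonneg ((Cone.hat h.nn hΓ).nn i) (mul_nonneg (h.nn i) (hX i))
  have hbr : 0 ≤ ∑ i, w i * g i * (E w (fun i => w i * XX w y a b i) -
      w i * (w i * XX w y a b i) - y * E w (XX w y a b)) := by
    have h1 : ∀ i, w i * g t * (E w (fun i => w i * XX w y a b i) -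
        w i * (w i * XX w y a b i) - y * E w (XX w y a b)) ≤
        w i * g i * (E w (fun i => w i * XX w y a b i) -
        w i * (w i * XX w y a b i) - y * E w (XX w y a b)) := by
      intro i
      by_cases hi : i = t
      · rw [hi]
      · have h2 := str_coef h ht a b hi
        refine mul_le_mul_of_nonneg_right (mul_le_mul_of_nonneg_left (hG.anti i t (ht i)) (h.nn i))
          (by linarith)
    refine le_trans ?_ (sum_le_sum fun i _ => h1 i)
    have e5 : ∑ i, w i * g t * (E w (fun i => w i * XX w y a b i) -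
        w i * (w i * XX w y a b i) - y * E w (XX w y a b)) =
        g t * E w (fun i => XX w y a b i * (w i * (1 - w i) - y)) := by
      have e6 : ∀ i, w i * g t * (E w (fun i => w i * XX w y a b i) -
          w i * (w i * XX w y a b i) - y * E w (XX w y a b)) =
          w i * (g t * (E w (fun i => w i * XX w y a b i) - y * E w (XX w y a b))) -
          g t * (w i * (w i * (w i * XX w y a b i))) := fun i => by ring
      have e7 : E w (fun i => XX w y a b i * (w i * (1 - w i) - y)) =
          E w (fun i => w i * XX w y a b i) - E w (fun i => w i * (w i * XX w y a b i)) -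
          y * E w (XX w y a b) := by
        rw [← E_const_mul, ← E_sub, ← E_sub]
        congr 1
        funext i
        ring
      have e8 : E w (fun i => w i * (w i * XX w y a b i)) =
          ∑ i, w i * (w i * (w i * XX w y a b i)) := rfl
      simp only [e6]
      rw [sum_sub_distrib, ← sum_mul, h.one, ← mul_sum, e7, e8]
      ring
    rw [e5]
    exact mul_nonneg (hG.nn t) (str_avg h ht hc1 a b)
  have e9 : ∑ i, w i * g i * (E w (fun i => w i * XX w y a b i) -
      w i * (w i * XX w y a b i) - y * E w (XX w y a b)) =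
      ∑ i, w i * g i * (E w (fun i => w i * XX w y a b i) - w i * (w i * XX w y a b i)) -
      y * (E w g * E w (XX w y a b)) := by
    have e10 : y * (E w g * E w (XX w y a b)) = ∑ i, w i * g i * (y * E w (XX w y a b)) := by
      rw [← sum_mul]
      change y * (E w g * E w (XX w y a b)) = E w g * (y * E w (XX w y a b))
      ring
    rw [e10, ← sum_sub_distrib]
    exact sum_congr rfl fun i _ => by ring
  rw [e9] at hbr
  have h3 : y * Y * E w (XX w y a b) ≤ y * (E w g * E w (XX w y a b)) := by
    have := mul_le_mul_of_nonneg_right hY1 hEX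
    rw [eL] at this
    nlinarith [mul_le_mul_of_nonneg_left this h.hy.le]
  have h5 : 0 ≤ E w (fun i => hat w Γ i * (w i * XX w y a b i)) +
      ∑ i, w i * g i * (E w (fun i => w i * XX w y a b i) - w i * (w i * XX w y a b i)) -
      y * Y * E w (XX w y a b) := by linarith
  have h6 := mul_nonneg h.hy.le h5
  linarith

/-- (B2): one child of `g` has two legs, the others are spiders with `a_K ≤ <f_K>`:
straighten the child with two legs -/
theorem imp_B2 (h : Hyp w y) {t : Fin q} (ht : Top w t) (hc1 : y ≤ w t * (1 - w t))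
    (a b : ℕ) (Js : List (List ℕ)) (hJ : ∀ J ∈ Js, sa w y J ≤ E w (sf w y J)) :
    Imp w y (.cons (.cons (R [a, b]) (Sp Js)) .nil) := by
  intro A Λ hA hΛ
  obtain ⟨s1, s2⟩ := st_nonneg h.nn h.hy.le (Sp Js)
  have e0 : (st w y (.nil : B)) = ⟨1, 1⟩ := rfl
  have eF : (B.cons (R [a, b]) (Sp Js)) = B.app (.cons (R [a, b]) .nil) (Sp Js) := rfl
  have key : ∀ F : B, Z w y A Λ (.cons (F.app (Sp Js)) .nil) =
      Z w y (L w Λ * (st w y (Sp Js)).a)
        (C (y * A) * (st w y (Sp Js)).p + Polynomial.X * (Λ * (st w y (Sp Js)).p)) F := by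
    intro F
    rw [Z_cons, e0, Z_app]
    simp only [mul_one]
    congr 1
    ring
  have hstr := straight_two h ht hc1 (Λ := Λ * (st w y (Sp Js)).p)
    (Γ := C (y * A) * (st w y (Sp Js)).p) (hΛ.mul s2) ((NN.C (mul_nonneg h.hy.le hA)).mul s2)
    (Y := L w Λ * (st w y (Sp Js)).a) (L_Sp h Js hJ Λ hΛ) a b
  rw [← key, ← key, ← eF] at hstr
  have hlt := Pool.Agent.Helper20.SW.lt_two a b
  have hlt2 : Lt (.cons ((B.path (a + b + 3)).app (Sp Js)) .nil)
      (.cons (B.app (.cons (R [a, b]) .nil) (Sp Js)) .nil) :=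
    (hlt.app_right (Sp Js)).cons_left .nil
  exact ⟨_, hlt2, hstr⟩

end Pool.Agent.Helper36.SW
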