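import Pool.Agent.Helper36.SW.Str
import Pool.Agent.Helper70.SW.C

/-!
S-world: a child with two legs whose siblings are bad spiders, `y ≤ T (1 - T)`.
-/

set_option autoImplicit false

namespace Pool.Agent.Helper36.SW

open Pool.Agent.Helper6.HL hiding X
open Pool.Agent.Helper4.SW
open Finset Polynomial

variable {q : ℕ} {w : Fin q → ℝ} {y : ℝ}

/-- bad spiders have `a_K ≤ <f_K>` -/
theorem bad_avg (h : Hyp w y) (K : List ℕ) (hK : 2 ≤ K.length) (hb : Bad w y K) :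
    sa w y K ≤ E w (sf w y K) := by
  have h1 := Pool.Agent.Helper70.SW.T0 h K hK hb
  have h2 : sa w y K * Pw w y 1 < Pw w y (K.sum + K.length + 2) := hb
  have hD : 0 < 1 - E w w := by
    have e : 0 < E w (ch w y 2) := E_pos h fun i => ch_pos h 1 i
    have e2 : ch w y 2 = fun i => 1 - w i := funext fun i => ch_two h i
    rw [e2, E_sub, E_one h] at e
    exact e
  have p1 := Pw_pos h 1
  have h3 : 0 ≤ y * (Pw w y (K.sum + K.length + 2) - sa w y K * Pw w y 1) :=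
    mul_nonneg h.hy.le (by linarith)
  have h4 := nonneg_of_mul_nonneg_right (h3.trans h1) hD
  exact le_of_mul_le_mul_right (by linarith) p1

/-- (B2) with bad siblings -/
theorem imp_B2_bad (h : Hyp w y) {t : Fin q} (ht : Top w t) (hc1 : y ≤ w t * (1 - w t))
    (a b : ℕ) (Js : List (List ℕ)) (hJ : ∀ J ∈ Js, 2 ≤ J.length ∧ Bad w y J) :
    Imp w y (.cons (.cons (R [a, b]) (Sp Js)) .nil) :=
  imp_B2 h ht hc1 a b Js fun J hJ' => bad_avg h J (hJ J hJ').1 (hJ J hJ').2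

theorem straight_bad (h : Hyp w y) {t : Fin q} (ht : Top w t) (hc1 : y ≤ w t * (1 - w t))
    (a b : ℕ) (Ks : List (List ℕ)) (hKs : ∀ K ∈ Ks, 3 ≤ K.length ∧ Bad w y K) :
    Imp w y (.cons (.cons (R [a, b]) (Sp Ks)) .nil) :=
  imp_B2_bad h ht hc1 a b Ks fun K hK => ⟨by have := (hKs K hK).1; omega, (hKs K hK).2⟩

theorem good_B2_bad (h : Hyp w y) {t : Fin q} (ht : Top w t) (hc1 : y ≤ w t * (1 - w t))
    (a b : ℕ) (Js : List (List ℕ)) (hJ : ∀ J ∈ Js, 2 ≤ J.length ∧ Bad w y J) :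
    Good w y (.cons (.cons (R [a, b]) (Sp Js)) .nil) :=
  (imp_B2_bad h ht hc1 a b Js hJ).good

end Pool.Agent.Helper36.SW
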